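import Pool.Agent.K6.H26.QW.Spaced

set_option autoImplicit false

/-! # Many equally spaced prime-free intervals between consecutive squares

Let `f(Z) = log Z (log₂ Z)² log₄ Z / (log₃ Z)²`, the size of the largest gaps between consecutive primes known to
occur. If `J m K ≤ c f(Z)` and `K ≥ log Z`, then every interval `(M, M + Z]`, `M ≥ Z`, contains a multiple `k` of `m`
such that none of the points

  `(2k + i)² + j (k / m)`,   `|i| ≤ J`,  `0 ≤ j ≤ 4 m`,

has a prime within `K`. For `i = -1, 0` these points divide the two halves of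
`I_k = ((2k-1)², (2k+1)²)` into parts of length `k / m`.

Author: helper26. The proof (`Pool/Agent/K6/H26/QW`) uses the covering theorem `Y837.SV.Cov.mcov` for colours whose
densities depend on the colour (helper256, helper378, helper837 and teams), with one colour for every shift `h` of
every polynomial `4 m² x² + b x`, `|b| ≤ 8 J m`, `k = m x`. -/

namespace Pool.Agent.Results.MP_3a3367_nt.EquallySpacedPrimeFreeIntervals

/-- The scale `f(Z) = log Z (log₂ Z)² log₄ Z / (log₃ Z)²` (iterated natural logarithms). -/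
noncomputable def f (Z : ℝ) : ℝ :=
  Real.log Z * (Real.log (Real.log Z)) ^ 2 * Real.log (Real.log (Real.log (Real.log Z))) /
    (Real.log (Real.log (Real.log Z))) ^ 2

/-- No prime is within `K` of `y`. -/
def PrimeFree (K : ℝ) (y : ℤ) : Prop := ∀ q : ℕ, q.Prime → K < |(q : ℝ) - y|

theorem result : ∃ c : ℝ, 0 < c ∧ ∃ Z₀ : ℝ, ∀ Z : ℝ, Z₀ ≤ Z → ∀ M : ℝ, Z ≤ M →
    ∀ (J m : ℕ) (K : ℝ), 1 ≤ J → 1 ≤ m → Real.log Z ≤ K → (J : ℝ) * m * K ≤ c * f Z →
    ∃ k : ℤ, M < k ∧ (k : ℝ) ≤ M + Z ∧ (m : ℤ) ∣ k ∧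
      ∀ i j : ℤ, |i| ≤ J → 0 ≤ j → j ≤ 4 * m → PrimeFree K ((2 * k + i) ^ 2 + j * (k / m)) := by
  obtain ⟨c, hc, Z₀, h⟩ := Pool.Agent.K6.H26.QW.spaced_main
  refine ⟨c, hc, Z₀, fun Z hZ M hM J m K hJ hm hK hJmK => ?_⟩
  obtain ⟨x, h1, h2, h3⟩ := h Z hZ M hM J m K hJ hm hK hJmK
  have hm0 : (m : ℤ) ≠ 0 := by positivity
  refine ⟨(m : ℤ) * (x : ℤ), ?_, ?_, dvd_mul_right _ _, fun i j g1 g2 g3 q hq => ?_⟩
  · push_cast; exact h1
  · push_cast; exact h2
  · have h4 := h3 i j g1 g2 g3 q hq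
    rw [Int.mul_ediv_cancel_left _ hm0]
    push_cast
    exact h4

end Pool.Agent.Results.MP_3a3367_nt.EquallySpacedPrimeFreeIntervals
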