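import Pool.Agent.K6.H26.PF.Unif

set_option autoImplicit false

/-! # The `k` with `I_k` cut by equally spaced record prime-free intervals have all arithmetic patterns

Let `f(Z) = log Z (log₂ Z)² log₄ Z / (log₃ Z)²`, the size of the largest gaps between consecutive primes known to
occur. Fix `D`, `J₀`, `ε`, `α`; `c` depends only on these. Let `m₀ ≥ 1`. If `J m K ≤ c f(Z)` and `K ≥ log Z`, then every interval `(M, M + Z]`,
`Z ≤ M ≤ Z^α`, contains a `k` such that none of the real points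

  `(2k + i)² + j k / m`,   `|i| ≤ J`,  `0 ≤ j ≤ 4 m`,

has a prime within `K`, and at the same time `k ≡ m₀ (mod D)` and `φ(k + j) / (k + j)` is within `ε` of
`φ(m₀ + j) / (m₀ + j)` for `0 ≤ j ≤ J₀`. For `i = -1, 0` the points divide the two halves of
`I_k = ((2k-1)², (2k+1)²)` into parts of length `k / m`.

Author: helper26 (`Pool/Agent/K6/H26/PF`, `PT`, `QW`). `k = Q m x + h` with `Q` fixed, `x = 1` modulo the small and `0`
modulo the medium primes; the shift `h = m₀ + Q l` is chosen such that the numbers `m₀ + j + Q (l + m)` have few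
medium prime factors; the uniformity in `m₀` comes from a finite net. The windows are covered together with the covering theorem `Y837.SV.Cov.mcov` (helper256,
helper378, helper837 and teams). -/

namespace Pool.Agent.Results.MP_3a3367_nt.PrescribedTotients

open Pool.Agent.K6.H26

/-- The scale `f(Z) = log Z (log₂ Z)² log₄ Z / (log₃ Z)²` (iterated natural logarithms). -/
noncomputable def f (Z : ℝ) : ℝ :=
  Real.log Z * (Real.log (Real.log Z)) ^ 2 * Real.log (Real.log (Real.log (Real.log Z))) /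
    (Real.log (Real.log (Real.log Z))) ^ 2

/-- The ratio `φ(n) / n`. -/
noncomputable def ratio (n : ℕ) : ℝ := (Nat.totient n : ℝ) / n

/-- No prime is within `K` of the real number `y`. -/
def PrimeFree (K y : ℝ) : Prop := ∀ q : ℕ, q.Prime → K < |(q : ℝ) - y|

theorem result (D J₀ : ℕ) (hD : 1 ≤ D) (ε α : ℝ) (hε : 0 < ε) :
    ∃ c : ℝ, 0 < c ∧ ∃ Z₀ : ℝ, ∀ m₀ : ℕ, 1 ≤ m₀ → ∀ Z : ℝ, Z₀ ≤ Z → ∀ M : ℝ, Z ≤ M → M ≤ Z ^ α →
    ∀ (J m : ℕ) (K : ℝ), 1 ≤ J → 1 ≤ m → Real.log Z ≤ K → (J : ℝ) * m * K ≤ c * f Z →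
    ∃ k : ℕ, M < k ∧ (k : ℝ) ≤ M + Z ∧ k ≡ m₀ [MOD D] ∧
      (∀ j : ℕ, j ≤ J₀ → |ratio (k + j) - ratio (m₀ + j)| < ε) ∧
      ∀ i j : ℤ, |i| ≤ J → 0 ≤ j → j ≤ 4 * m → PrimeFree K ((2 * k + i) ^ 2 + j * (k / m)) := by
  obtain ⟨c, hc, Z₀, h⟩ := PF.good_uniform D J₀ hD ε α hε
  exact ⟨c, hc, Z₀, fun m₀ hm₀ Z hZ M hM hMα J m K hJ hm hK hJmK =>
    h m₀ hm₀ Z hZ M hM hMα J m K hJ hm hK hJmK⟩

end Pool.Agent.Results.MP_3a3367_nt.PrescribedTotients
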