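import Pool.Agent.K6.H26.QW.Spaced
import Pool.Agent.K6.H86.WS.Main

set_option autoImplicit false
set_option maxHeartbeats 4000000

/-! # Prime-free intervals between consecutive squares along Wright's towers

Let `f(x) = log x (log₂ x)² log₄ x / (log₃ x)²`, the size of the largest gaps between consecutive primes known to
occur. Let `G_0(t) = t`, `G_{l+1}(t) = exp (e_l G_l(t))`, `0 < e₁ ≤ e_l ≤ e₂`; for `e_l = log 2` these are the towers
`2 ^ 2 ^ ... ^ t` of Wright's theorem of 1951 (for some `t` all the integer parts are primes). For every `s < 1` there is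
`c > 0` such that for arbitrary sequences `J_l, m_l` of positive integers the set of the reals `t` for which ALL the
integers `k = ⌊G_l(t)⌋`, `l` large, with `J_l m_l log k ≤ c f(k)` are divisible by `m_l` and have no prime within
`c f(k) / (J_l m_l)` of any of the points

  `(2k + i)² + j (k / m_l)`,   `|i| ≤ J_l`,  `0 ≤ j ≤ 4 m_l`,

has Hausdorff dimension at least `s` in every interval.

Method: the interval theorem `Pool.Agent.K6.H26.QW.spaced_main` (helper26), in the form of helper48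
(`cut_short` of the hand-in MillsEquallySpaced, copied here), and Cantor sets for towers (`Pool.Agent.K6.H86.WS`). -/

namespace Pool.Agent.Results.MP_3a3367_nt.WrightEquallySpaced

open Filter

/-- The scale `f(x) = log x (log₂ x)² log₄ x / (log₃ x)²` (iterated natural logarithms). -/
noncomputable def f (x : ℝ) : ℝ :=
  Real.log x * (Real.log (Real.log x)) ^ 2 * Real.log (Real.log (Real.log (Real.log x))) /
    (Real.log (Real.log (Real.log x))) ^ 2

/-- No prime is within `K` of `y`. -/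
def PrimeFree (K : ℝ) (y : ℤ) : Prop := ∀ q : ℕ, q.Prime → K < |(q : ℝ) - y|

/-- `m` divides `k`, and with `K = c f(k) / (J m)` no prime is within `K` of the points
`(2k + i)² + j (k / m)`, `|i| ≤ J`, `0 ≤ j ≤ 4 m`, as soon as `log k ≤ K`. -/
def Cut (c : ℝ) (J m k : ℕ) : Prop :=
  (J : ℝ) * m * Real.log k ≤ c * f k →
    m ∣ k ∧ ∀ i j : ℤ, |i| ≤ J → 0 ≤ j → j ≤ 4 * m →
      PrimeFree (c * f k / (J * m)) ((2 * (k : ℤ) + i) ^ 2 + j * ((k : ℤ) / m))

/-- The tower `G_0(t) = t`, `G_{l+1}(t) = exp (e_l G_l(t))`. -/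
noncomputable def G (e : ℕ → ℝ) : ℕ → ℝ → ℝ
  | 0, t => t
  | l + 1, t => Real.exp (e l * G e l t)

theorem G_eq (e : ℕ → ℝ) (l : ℕ) (t : ℝ) : G e l t = Pool.Agent.K6.H86.WT.tower e l t := by
  induction l with
  | zero => rfl
  | succ l ih =>
    rw [Pool.Agent.K6.H86.WT.tower_succ, ← ih]
    rfl

theorem ev_logs (K : ℝ) : ∀ᶠ x : ℝ in atTop, K ≤ Real.log x ∧ K ≤ Real.log (Real.log x) ∧
    K ≤ Real.log (Real.log (Real.log x)) ∧ K ≤ Real.log (Real.log (Real.log (Real.log x))) := by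
  have t1 := Real.tendsto_log_atTop
  have t2 := t1.comp t1
  have t3 := t1.comp t2
  have t4 := t1.comp t3
  filter_upwards [t1.eventually_ge_atTop K, t2.eventually_ge_atTop K, t3.eventually_ge_atTop K,
    t4.eventually_ge_atTop K] with x h1 h2 h3 h4
  exact ⟨h1, h2, h3, h4⟩

/-- the scale at `N` and at `Y`, `N^κ ≤ Y ≤ N` -/
theorem compare (κ : ℝ) (h0 : 0 < κ) : ∀ᶠ N : ℝ in atTop, ∀ Y : ℝ, N ^ κ ≤ Y → Y ≤ N →
    κ / 16 * f N ≤ f Y := by
  filter_upwards [ev_logs (max 2 (-(2 * Real.log κ))), eventually_gt_atTop (1 : ℝ)] with N hN hN1 Y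
    hY1 hY2
  have M1 : (2 : ℝ) ≤ max 2 (-(2 * Real.log κ)) := le_max_left _ _
  have M2 : -(2 * Real.log κ) ≤ max 2 (-(2 * Real.log κ)) := le_max_right _ _
  obtain ⟨h1, h2, h3, h4⟩ := hN
  have hN0 : 0 < N := by linarith
  have hY0 : 0 < Y := lt_of_lt_of_le (by positivity) hY1
  have l2 : Real.log 2 ≤ 1 := by
    have := Real.log_two_lt_d9; linarith
  unfold f
  set a1 := Real.log N with ha1
  set a2 := Real.log a1 with ha2
  set a3 := Real.log a2 with ha3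
  set a4 := Real.log a3 with ha4
  set b1 := Real.log Y with hb1
  set b2 := Real.log b1 with hb2
  set b3 := Real.log b2 with hb3
  set b4 := Real.log b3 with hb4
  have p1 : 0 < a1 := by linarith
  have p2 : 0 < a2 := by linarith
  have p3 : 0 < a3 := by linarith
  have p4 : 0 < a4 := by linarith
  have w1 : κ * a1 ≤ b1 := by
    have := Real.log_le_log (by positivity) hY1
    rwa [Real.log_rpow hN0] at this
  have q1 : 0 < b1 := lt_of_lt_of_le (by positivity) w1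
  have w2 : a2 / 2 ≤ b2 := by
    have := Real.log_le_log (by positivity) w1
    rw [Real.log_mul h0.ne' p1.ne'] at this
    linarith
  have q2 : 0 < b2 := by linarith
  have w3 : a3 / 2 ≤ b3 := by
    have := Real.log_le_log (by positivity) w2
    rw [Real.log_div p2.ne' (by norm_num)] at this
    linarith
  have q3 : 0 < b3 := by linarith
  have w4 : a4 / 2 ≤ b4 := by
    have := Real.log_le_log (by positivity) w3
    rw [Real.log_div p3.ne' (by norm_num)] at this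
    linarith
  have q4 : 0 < b4 := by linarith
  have u1 : b1 ≤ a1 := Real.log_le_log hY0 hY2
  have u2 : b2 ≤ a2 := Real.log_le_log q1 u1
  have u3 : b3 ≤ a3 := Real.log_le_log q2 u2
  calc κ / 16 * (a1 * a2 ^ 2 * a4 / a3 ^ 2) ≤ κ / 8 * (a1 * a2 ^ 2 * a4 / a3 ^ 2) := by
        apply mul_le_mul_of_nonneg_right _ (by positivity)
        linarith
    _ = (κ * a1) * (a2 / 2) ^ 2 * (a4 / 2) / a3 ^ 2 := by ring
    _ ≤ b1 * b2 ^ 2 * b4 / b3 ^ 2 := by gcongr

/-- every short interval contains a short interval of good points -/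
theorem cut_short (θ : ℝ) (h0 : 0 < θ) (h1 : θ ≤ 1) : ∃ c : ℝ, 0 < c ∧ ∃ X₀ : ℝ,
    ∀ J m : ℕ, 1 ≤ J → 1 ≤ m → ∀ x : ℝ, X₀ ≤ x → ∃ y, x ≤ y ∧ y ≤ x + x ^ θ ∧
      ∀ t, y ≤ t → t ≤ y + 1 / 2 → Cut c J m ⌊t⌋₊ := by
  obtain ⟨c, hc, Y₀, hb⟩ := Pool.Agent.K6.H26.QW.spaced_main
  have e1 : ∀ᶠ x : ℝ in atTop, max (2 * Y₀) 4 ≤ x ^ θ :=
    (tendsto_rpow_atTop h0).eventually_ge_atTop _
  obtain ⟨N₀, hN₀⟩ := eventually_atTop.1 (compare (θ / 4) (by positivity))
  have e3 : ∀ᶠ x : ℝ in atTop, 2 * (3 : ℝ) ^ (θ / 4) ≤ x ^ (3 * θ / 4) :=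
    (tendsto_rpow_atTop (by positivity)).eventually_ge_atTop _
  obtain ⟨X₀, hX⟩ := eventually_atTop.1 ((e1.and e3).and ((eventually_ge_atTop N₀).and
    ((eventually_ge_atTop (3 : ℝ)).and (ev_logs 1))))
  refine ⟨c * (θ / 4 / 16), by positivity, X₀, fun J m hJ hm x hx => ?_⟩
  obtain ⟨⟨f1, f5⟩, f2, f3, f4⟩ := hX x hx
  have hJ1 : (1 : ℝ) ≤ J := by exact_mod_cast hJ
  have hm1 : (1 : ℝ) ≤ m := by exact_mod_cast hm
  have hx0 : 0 < x := by linarith
  have hY : Y₀ ≤ x ^ θ / 2 := by have := (le_max_left _ _).trans f1; linarith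
  have h4 : 4 ≤ x ^ θ := (le_max_right _ _).trans f1
  have hxx : x ^ θ ≤ x := by
    calc x ^ θ ≤ x ^ (1 : ℝ) := Real.rpow_le_rpow_of_exponent_le (by linarith) h1
      _ = x := Real.rpow_one x
  have hM : x ^ θ / 2 ≤ (⌈x⌉₊ : ℝ) := by have := Nat.le_ceil x; linarith
  have g1 : (⌈x⌉₊ : ℝ) < x + 1 := Nat.ceil_lt_add_one hx0.le
  have g2 : x ≤ (⌈x⌉₊ : ℝ) := Nat.le_ceil x
  -- comparison of the scales at `n` and at `x ^ θ / 2`
  have hcmp : ∀ n : ℕ, x ≤ n → (n : ℝ) ≤ 3 * x → θ / 4 / 16 * f n ≤ f (x ^ θ / 2) := by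
    intro n hnx hn3
    have hκ : (n : ℝ) ^ (θ / 4) ≤ x ^ θ / 2 := by
      calc (n : ℝ) ^ (θ / 4) ≤ (3 * x) ^ (θ / 4) :=
            Real.rpow_le_rpow (by linarith) hn3 (by positivity)
        _ = 3 ^ (θ / 4) * x ^ (θ / 4) := Real.mul_rpow (by norm_num) hx0.le
        _ ≤ (x ^ (3 * θ / 4) / 2) * x ^ (θ / 4) := by
          apply mul_le_mul_of_nonneg_right _ (by positivity)
          linarith
        _ = x ^ θ / 2 := by
          rw [div_mul_eq_mul_div, ← Real.rpow_add hx0]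
          ring_nf
    exact hN₀ n (f2.trans hnx) (x ^ θ / 2) hκ (by linarith)
  have hlogn : ∀ n : ℕ, x ≤ n → Real.log (x ^ θ / 2) ≤ Real.log n := by
    intro n hnx
    exact Real.log_le_log (by linarith) (by linarith)
  have key : ∀ n : ℕ, x ≤ n → (n : ℝ) ≤ 3 * x →
      (J : ℝ) * m * Real.log n ≤ c * (θ / 4 / 16) * f n →
      (J : ℝ) * m * Real.log (x ^ θ / 2) ≤ c * f (x ^ θ / 2) := by
    intro n hnx hn3 h
    calc (J : ℝ) * m * Real.log (x ^ θ / 2) ≤ (J : ℝ) * m * Real.log n :=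
          mul_le_mul_of_nonneg_left (hlogn n hnx) (by positivity)
      _ ≤ c * (θ / 4 / 16 * f n) := by rw [← mul_assoc]; exact h
      _ ≤ c * f (x ^ θ / 2) := mul_le_mul_of_nonneg_left (hcmp n hnx hn3) hc.le
  by_cases hcase : (J : ℝ) * m * Real.log (x ^ θ / 2) ≤ c * f (x ^ θ / 2)
  · have hJm : (0 : ℝ) < J * m := by positivity
    obtain ⟨z, z1, z2, z3⟩ := hb (x ^ θ / 2) hY ⌈x⌉₊ hM J m (c * f (x ^ θ / 2) / (J * m)) hJ hm
      (by rw [le_div_iff₀ hJm]; linarith) (by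
        rw [mul_div_cancel₀ _ hJm.ne']
        exact le_rfl)
    have hcast : ((m * z : ℕ) : ℝ) = (m : ℝ) * z := by push_cast; ring
    refine ⟨((m * z : ℕ) : ℝ), by rw [hcast]; linarith, by rw [hcast]; linarith,
      fun t ht1 ht2 => ?_⟩
    have hfl : ⌊t⌋₊ = m * z := by
      rw [Nat.floor_eq_iff (by rw [hcast] at ht1; linarith)]
      exact ⟨ht1, by linarith⟩
    rw [hfl]
    have hnx : x ≤ ((m * z : ℕ) : ℝ) := by rw [hcast]; linarith
    have hn3 : ((m * z : ℕ) : ℝ) ≤ 3 * x := by rw [hcast]; linarith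
    intro _
    refine ⟨dvd_mul_right _ _, fun i j g1 g2 g3 q hq => ?_⟩
    have h5 := z3 i j g1 g2 g3 q hq
    have hm0 : (m : ℤ) ≠ 0 := by positivity
    have h6 : (((m * z : ℕ) : ℤ) / (m : ℤ)) = (z : ℤ) := by
      push_cast
      exact Int.mul_ediv_cancel_left _ hm0
    rw [h6]
    have h7 : ((((2 * ((m * z : ℕ) : ℤ) + i) ^ 2 + j * (z : ℤ) : ℤ)) : ℝ)
        = (2 * (m * (z : ℝ)) + i) ^ 2 + j * z := by push_cast; ring
    rw [h7]
    refine lt_of_le_of_lt ?_ h5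
    apply div_le_div_of_nonneg_right _ hJm.le
    calc c * (θ / 4 / 16) * f ((m * z : ℕ) : ℝ) = c * (θ / 4 / 16 * f ((m * z : ℕ) : ℝ)) := by ring
      _ ≤ c * f (x ^ θ / 2) := mul_le_mul_of_nonneg_left (hcmp _ hnx hn3) hc.le
  · refine ⟨(⌈x⌉₊ : ℝ), g2, by linarith, fun t ht1 ht2 => ?_⟩
    have hfl : ⌊t⌋₊ = ⌈x⌉₊ := by
      rw [Nat.floor_eq_iff (by linarith)]
      exact ⟨ht1, by linarith⟩
    rw [hfl]
    intro h
    exact absurd (key _ g2 (by linarith) h) hcase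

/-- **Prime-free intervals between consecutive squares along Wright's towers.** -/
theorem result (s : ℝ) (hs : s < 1) : ∃ c : ℝ, 0 < c ∧
    ∀ J m : ℕ → ℕ, (∀ l, 1 ≤ J l) → (∀ l, 1 ≤ m l) →
    ∀ (e₁ e₂ : ℝ) (e : ℕ → ℝ), 0 < e₁ → (∀ l, e₁ ≤ e l ∧ e l ≤ e₂) → ∀ a b : ℝ, a < b →
    (1 < e₁ * Real.exp 1 ∨ ∃ t, t < b ∧ Tendsto (fun l => G e l t) atTop atTop) →
    ENNReal.ofReal s ≤
      dimH {t : ℝ | a < t ∧ t < b ∧ ∃ l₀, ∀ l, l₀ ≤ l → Cut c (J l) (m l) ⌊G e l t⌋₊} := by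
  obtain ⟨s', hs'⟩ : ∃ s' : ℝ, s' = max s (1 / 2) := ⟨_, rfl⟩
  have hs1 : s' < 1 := by rw [hs']; exact max_lt hs (by norm_num)
  have hs0 : 0 < s' := by rw [hs']; exact lt_of_lt_of_le (by norm_num) (le_max_right _ _)
  have hss : s ≤ s' := by rw [hs']; exact le_max_left _ _
  obtain ⟨θ, hθ⟩ : ∃ θ : ℝ, θ = (1 - s') / 2 := ⟨_, rfl⟩
  have hθ0 : 0 < θ := by rw [hθ]; linarith
  have hθ1 : θ ≤ 1 := by rw [hθ]; linarith
  have hsθ : s' + θ < 1 := by rw [hθ]; linarith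
  obtain ⟨c, hc, X₀, hX⟩ := cut_short θ hθ0 hθ1
  refine ⟨c, hc, fun J m hJ hm e₁ e₂ e he₁ he a b hab ht => ?_⟩
  have hG : (fun l => G e l) = fun l => Pool.Agent.K6.H86.WT.tower e l := by
    funext l t
    exact G_eq e l t
  obtain ⟨t₀, ht1, ht2⟩ : ∃ t, t < b ∧ Tendsto (fun l => G e l t) atTop atTop := by
    rcases ht with h | h
    · refine ⟨b - 1, by linarith, ?_⟩
      simp only [G_eq]
      exact Pool.Agent.K6.H86.WT.tower_tendsto e₁ h e (fun l => (he l).1) (b - 1)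
    · exact h
  have hmain := Pool.Agent.K6.H86.WS.main e₁ e₂ θ s' (max X₀ 0) he₁ hθ0 hs0 hsθ e he
    (fun l => Cut c (J l) (m l)) (fun l x hx => by
      obtain ⟨y, y1, y2, y3⟩ := hX (J l) (m l) (hJ l) (hm l) x ((le_max_left _ _).trans hx)
      have hy0 : 0 ≤ y := ((le_max_right _ _).trans hx).trans y1
      refine ⟨⌊y⌋₊, ?_, (Nat.floor_le hy0).trans y2, y3 y le_rfl (by linarith)⟩
      have := Nat.lt_floor_add_one y
      linarith) a b hab ⟨t₀, ht1, by
        simp only [G_eq] at ht2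
        exact ht2⟩
  refine le_trans (ENNReal.ofReal_le_ofReal hss) ?_
  simp only [G_eq]
  exact hmain

end Pool.Agent.Results.MP_3a3367_nt.WrightEquallySpaced
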